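import Mathlib
import Pool.Agent.Q165.NB.Basic

/-!
# MP_6eafb7_an: positivity of the convolution sums of generalized Bernoulli polynomials

`B_n^(n)` has `n` real zeros, one in each interval `(j, j + 1)`, `0 ≤ j < n`; so
`|B_n^(n)(x + i y)|² = ∏ ((x - r_j)² + y²)` has nonnegative coefficients in `y²`.
-/

set_option autoImplicit false

open Finset

namespace Pool.Agent.Results.MP_6eafb7_an.Positivity

/-- The generalized Bernoulli polynomial `B_m^(a)(x)` for a natural number `a`: `m!` times the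
coefficient of `t ^ m` in `(t / (e^t - 1)) ^ a * e^(x t)`. Here `bernoulliPowerSeries ℝ` is Mathlib's
power series `t / (e^t - 1)`, and `rescale x (exp ℝ)` is `e^(x t)`. -/
noncomputable def genBernoulli (a m : ℕ) (x : ℝ) : ℝ :=
  (m.factorial : ℝ) * PowerSeries.coeff m
    ((bernoulliPowerSeries ℝ) ^ a * PowerSeries.rescale x (PowerSeries.exp ℝ))

/-- `α_{n,k}(x)` -/
noncomputable def alpha (n k : ℕ) (x : ℝ) : ℝ :=
  (-1) ^ k * ∑ j ∈ range (2 * k + 1), (-1) ^ j * (n.choose j : ℝ) * (n.choose (2 * k - j) : ℝ) *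
    genBernoulli n (n - j) x * genBernoulli n (n - (2 * k - j)) x

/-- `β_{n,k}(x)` -/
noncomputable def beta (n k : ℕ) (x : ℝ) : ℝ :=
  (-1) ^ k * ∑ j ∈ range (2 * k + 1), (-1) ^ j * (n.choose j : ℝ) * (n.choose (2 * k - j) : ℝ) *
    genBernoulli n j x * genBernoulli n (2 * k - j) x

open Polynomial in
/-- the polynomial identity -/
theorem identity (n : ℕ) (x : ℝ) : ∃ s : ℕ → ℝ,
    (∑ r ∈ range (n + 1), C (((n.choose r : ℝ) * genBernoulli n (n - r) x : ℝ) * Complex.I ^ r) * X ^ r) *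
    (∑ r ∈ range (n + 1), C (((n.choose r : ℝ) * genBernoulli n (n - r) x : ℝ) * (-Complex.I) ^ r) * X ^ r)
      = (∏ j ∈ range n, (X ^ 2 + C (((s j) ^ 2 : ℝ) : ℂ)) : ℂ[X]) := by
  obtain ⟨r, -, hr⟩ := Pool.Agent.Q165.NB.B_prod n
  refine ⟨fun j => x - r j, ?_⟩
  -- Taylor expansion as polynomial identity
  have h1 : (∑ i ∈ range (n + 1), C ((n.choose i : ℝ) * genBernoulli n (n - i) x) * X ^ i : ℝ[X]) =
      ∏ j ∈ range n, (X + C (x - r j)) := by
    refine Polynomial.funext fun y => ?_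
    rw [eval_finsetSum, eval_prod]
    have h2 := Pool.Agent.Q165.NB.B_add n n x y
    have h3 : Pool.Agent.Q165.NB.B n n (x + y) = ∏ j ∈ range n, (x + y - r j) := by
      rw [← Pool.Agent.Q165.NB.QP_eval, hr, eval_prod]
      refine Finset.prod_congr rfl fun j _ => ?_
      simp
    calc ∑ i ∈ range (n + 1), eval y (C ((n.choose i : ℝ) * genBernoulli n (n - i) x) * X ^ i)
        = ∑ i ∈ range (n + 1), (n.choose i : ℝ) * y ^ i * Pool.Agent.Q165.NB.B n (n - i) x := by
          refine Finset.sum_congr rfl fun i _ => ?_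
          rw [eval_mul, eval_C, eval_pow, eval_X]
          show (n.choose i : ℝ) * Pool.Agent.Q165.NB.B n (n - i) x * y ^ i = _
          ring
      _ = ∏ j ∈ range n, (x + y - r j) := by rw [← h2, h3]
      _ = _ := by
          refine Finset.prod_congr rfl fun j _ => ?_
          simp
          ring
  have h4 : ∀ z : ℂ, (∑ i ∈ range (n + 1), C (((n.choose i : ℝ) * genBernoulli n (n - i) x : ℝ) *
      z ^ i) * X ^ i : ℂ[X]) = ∏ j ∈ range n, (C z * X + C (((x - r j : ℝ)) : ℂ)) := by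
    intro z
    have h5 := congrArg (fun p : ℝ[X] => (p.map Complex.ofRealHom).comp (C z * X)) h1
    simp only [Polynomial.map_sum, Polynomial.map_mul, Polynomial.map_pow, map_C, map_X,
      Polynomial.map_prod, Polynomial.map_add] at h5
    rw [Polynomial.sum_comp, Polynomial.prod_comp] at h5
    simp only [mul_comp, C_comp, pow_comp, X_comp, add_comp, mul_pow] at h5
    refine Eq.trans ?_ (h5.trans ?_)
    · refine Finset.sum_congr rfl fun i _ => ?_
      rw [← C_pow, ← mul_assoc, ← C_mul]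
      rfl
    · rfl
  rw [h4, h4, ← Finset.prod_mul_distrib]
  refine Finset.prod_congr rfl fun j _ => ?_
  have h6 : (C Complex.I * X + C (((x - r j : ℝ)) : ℂ)) * (C (-Complex.I) * X + C (((x - r j : ℝ)) : ℂ)) =
      C (-(Complex.I * Complex.I)) * X ^ 2 + C ((((x - r j : ℝ)) : ℂ) ^ 2) := by
    simp only [C_neg, C_mul, C_pow]
    ring
  rw [h6, Complex.I_mul_I, neg_neg, C_1, one_mul]
  push_cast
  rfl

open Polynomial in
/-- coefficients of the product are nonnegative reals -/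
theorem coeff_prod_nonneg (n : ℕ) (s : ℕ → ℝ) (m : ℕ) :
    ∃ c : ℝ, 0 ≤ c ∧ (∏ j ∈ range n, (X ^ 2 + C (((s j) ^ 2 : ℝ) : ℂ)) : ℂ[X]).coeff m = c := by
  induction n generalizing m with
  | zero =>
    rw [Finset.range_zero, Finset.prod_empty, coeff_one]
    split_ifs
    · exact ⟨1, zero_le_one, by simp⟩
    · exact ⟨0, le_rfl, by simp⟩
  | succ n ih =>
    rw [Finset.prod_range_succ, mul_add, coeff_add, coeff_mul_C]
    obtain ⟨c, hc, h1⟩ := ih m
    rw [h1]
    by_cases hm : 2 ≤ m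
    · obtain ⟨m', rfl⟩ : ∃ m', m = m' + 2 := ⟨m - 2, by omega⟩
      obtain ⟨c', hc', h2⟩ := ih m'
      rw [coeff_mul_X_pow, h2]
      refine ⟨c' + c * s n ^ 2, by positivity, ?_⟩
      push_cast
      ring
    · rw [coeff_mul_X_pow', if_neg hm]
      refine ⟨c * s n ^ 2, by positivity, ?_⟩
      push_cast
      ring

/-- powers of `i` -/
theorem I_pow (k r s : ℕ) (h : r + s = 2 * k) :
    Complex.I ^ r * (-Complex.I) ^ s = (-1) ^ k * (-1) ^ r := by
  rw [neg_pow, mul_comm ((-1) ^ s), ← mul_assoc, ← pow_add, h, pow_mul, Complex.I_sq]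
  congr 1
  have h1 : (-1 : ℂ) ^ r * (-1) ^ s = 1 := by
    rw [← pow_add, h, pow_mul]
    norm_num
  have h2 : (-1 : ℂ) ^ r * (-1) ^ r = 1 := by
    rw [← pow_add, ← two_mul, pow_mul]
    norm_num
  calc (-1 : ℂ) ^ s = ((-1 : ℂ) ^ r * (-1) ^ r) * (-1) ^ s := by rw [h2, one_mul]
    _ = (-1 : ℂ) ^ r * ((-1 : ℂ) ^ r * (-1) ^ s) := by ring
    _ = (-1 : ℂ) ^ r := by rw [h1, mul_one]

open Polynomial in
theorem alpha_eq (n k : ℕ) (hk : 2 * k ≤ n) (x : ℝ) :
    ((∑ r ∈ range (n + 1), C (((n.choose r : ℝ) * genBernoulli n (n - r) x : ℝ) * Complex.I ^ r) * X ^ r) *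
    (∑ r ∈ range (n + 1), C (((n.choose r : ℝ) * genBernoulli n (n - r) x : ℝ) * (-Complex.I) ^ r) * X ^ r)
      : ℂ[X]).coeff (2 * k) = ((alpha n k x : ℝ) : ℂ) := by
  have hc : ∀ (z : ℂ) (m : ℕ), m ≤ n → (∑ r ∈ range (n + 1),
      C (((n.choose r : ℝ) * genBernoulli n (n - r) x : ℝ) * z ^ r) * X ^ r : ℂ[X]).coeff m =
      ((n.choose m : ℝ) * genBernoulli n (n - m) x : ℝ) * z ^ m := by
    intro z m hm
    rw [finsetSum_coeff, Finset.sum_eq_single m]
    · rw [coeff_C_mul_X_pow, if_pos rfl]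
    · intro r _ hr
      rw [coeff_C_mul_X_pow, if_neg hr.symm]
    · intro h
      exact absurd (mem_range.2 (by omega)) h
  rw [coeff_mul, Finset.Nat.sum_antidiagonal_eq_sum_range_succ_mk]
  unfold alpha
  rw [Finset.mul_sum, Complex.ofReal_sum]
  refine Finset.sum_congr rfl fun j hj => ?_
  have hj' : j ≤ 2 * k := Nat.lt_succ_iff.1 (mem_range.1 hj)
  rw [hc _ _ (by omega), hc _ _ (by omega)]
  have h1 := I_pow k j (2 * k - j) (by omega)
  push_cast
  linear_combination ((n.choose j : ℂ) * (genBernoulli n (n - j) x : ℂ) * (n.choose (2 * k - j) : ℂ) *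
    (genBernoulli n (n - (2 * k - j)) x : ℂ)) * h1

open Polynomial in
theorem beta_eq (n k : ℕ) (hk : 2 * k ≤ n) (x : ℝ) :
    ((∑ r ∈ range (n + 1), C (((n.choose r : ℝ) * genBernoulli n (n - r) x : ℝ) * Complex.I ^ r) * X ^ r) *
    (∑ r ∈ range (n + 1), C (((n.choose r : ℝ) * genBernoulli n (n - r) x : ℝ) * (-Complex.I) ^ r) * X ^ r)
      : ℂ[X]).coeff (2 * (n - k)) = ((beta n k x : ℝ) : ℂ) := by
  have hc : ∀ (z : ℂ) (m : ℕ), m ≤ n → (∑ r ∈ range (n + 1),
      C (((n.choose r : ℝ) * genBernoulli n (n - r) x : ℝ) * z ^ r) * X ^ r : ℂ[X]).coeff m =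
      ((n.choose m : ℝ) * genBernoulli n (n - m) x : ℝ) * z ^ m := by
    intro z m hm
    rw [finsetSum_coeff, Finset.sum_eq_single m]
    · rw [coeff_C_mul_X_pow, if_pos rfl]
    · intro r _ hr
      rw [coeff_C_mul_X_pow, if_neg hr.symm]
    · intro h
      exact absurd (mem_range.2 (by omega)) h
  have hc0 : ∀ (z : ℂ) (m : ℕ), n < m → (∑ r ∈ range (n + 1),
      C (((n.choose r : ℝ) * genBernoulli n (n - r) x : ℝ) * z ^ r) * X ^ r : ℂ[X]).coeff m = 0 := by
    intro z m hm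
    rw [finsetSum_coeff]
    refine Finset.sum_eq_zero fun r hr => ?_
    have := mem_range.1 hr
    rw [coeff_C_mul_X_pow, if_neg (by omega)]
  rw [coeff_mul, Finset.Nat.sum_antidiagonal_eq_sum_range_succ_mk]
  unfold beta
  rw [Finset.mul_sum]
  -- only the indices `n - 2k ≤ r ≤ n` contribute
  have h0 : ∑ r ∈ range ((2 * (n - k)).succ), (∑ r ∈ range (n + 1),
        C (((n.choose r : ℝ) * genBernoulli n (n - r) x : ℝ) * Complex.I ^ r) * X ^ r : ℂ[X]).coeff r *
      (∑ r ∈ range (n + 1), C (((n.choose r : ℝ) * genBernoulli n (n - r) x : ℝ) *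
        (-Complex.I) ^ r) * X ^ r : ℂ[X]).coeff (2 * (n - k) - r) =
      ∑ r ∈ (range (2 * k + 1)).image (fun j => n - j), (∑ r ∈ range (n + 1),
        C (((n.choose r : ℝ) * genBernoulli n (n - r) x : ℝ) * Complex.I ^ r) * X ^ r : ℂ[X]).coeff r *
      (∑ r ∈ range (n + 1), C (((n.choose r : ℝ) * genBernoulli n (n - r) x : ℝ) *
        (-Complex.I) ^ r) * X ^ r : ℂ[X]).coeff (2 * (n - k) - r) := by
    symm
    refine Finset.sum_subset ?_ ?_
    · intro r hr
      obtain ⟨j, hj, rfl⟩ := Finset.mem_image.1 hr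
      have := mem_range.1 hj
      rw [mem_range]
      omega
    · intro r hr hr'
      have h1 := mem_range.1 hr
      by_cases h2 : n < r
      · rw [hc0 _ r h2, zero_mul]
      · by_cases h3 : n < 2 * (n - k) - r
        · rw [hc0 _ _ h3, mul_zero]
        · exfalso
          apply hr'
          refine Finset.mem_image.2 ⟨n - r, ?_, by omega⟩
          rw [mem_range]
          omega
  rw [h0, Finset.sum_image]
  · rw [Complex.ofReal_sum]
    refine Finset.sum_congr rfl fun j hj => ?_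
    have hj' : j ≤ 2 * k := Nat.lt_succ_iff.1 (mem_range.1 hj)
    rw [hc _ _ (by omega), hc _ _ (by omega)]
    have e1 : 2 * (n - k) - (n - j) = n - (2 * k - j) := by omega
    have e2 : n - (n - j) = j := by omega
    have e3 : n - (n - (2 * k - j)) = 2 * k - j := by omega
    rw [e1, e2, e3, Nat.choose_symm (by omega), Nat.choose_symm (by omega)]
    have h1 := I_pow (n - k) (n - j) (n - (2 * k - j)) (by omega)
    have h2 : (-1 : ℂ) ^ (n - k) * (-1) ^ (n - j) = (-1) ^ k * (-1) ^ j := by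
      have h3 : ∀ i, i ≤ n → (-1 : ℂ) ^ (n - i) = (-1) ^ n * (-1) ^ i := by
        intro i hi
        have h4 : (-1 : ℂ) ^ i * (-1) ^ i = 1 := by
          rw [← pow_add, ← two_mul, pow_mul]
          norm_num
        calc (-1 : ℂ) ^ (n - i) = (-1) ^ (n - i) * ((-1) ^ i * (-1) ^ i) := by rw [h4, mul_one]
          _ = (-1) ^ (n - i + i) * (-1) ^ i := by rw [pow_add]; ring
          _ = (-1) ^ n * (-1) ^ i := by rw [Nat.sub_add_cancel hi]
      rw [h3 k (by omega), h3 j (by omega)]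
      have h5 : (-1 : ℂ) ^ n * (-1) ^ n = 1 := by
        rw [← pow_add, ← two_mul, pow_mul]
        norm_num
      linear_combination ((-1 : ℂ) ^ k * (-1) ^ j) * h5
    rw [h2] at h1
    push_cast
    linear_combination ((n.choose j : ℂ) * (genBernoulli n j x : ℂ) * (n.choose (2 * k - j) : ℂ) *
      (genBernoulli n (2 * k - j) x : ℂ)) * h1
  · intro i hi j hj hij
    have h1 := mem_range.1 hi
    have h2 := mem_range.1 hj
    simp only at hij
    omega

/-- Q1 is true, and all zeros of `B_n^(n)` are real: one in each interval `(j, j + 1)`,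
`0 ≤ j < n`. -/
theorem result :
    (∀ n : ℕ, 1 ≤ n → ∀ x : ℝ,
      (∀ k : ℕ, 1 ≤ 2 * k → 2 * k ≤ n → 0 ≤ alpha n k x) ∧
      (∀ k : ℕ, 2 * k ≤ n - 1 → 0 ≤ beta n k x)) ∧
    (∀ n : ℕ, ∃ r : ℕ → ℝ, (∀ j < n, (j : ℝ) < r j ∧ r j < j + 1) ∧
      ∀ x : ℝ, genBernoulli n n x = ∏ j ∈ range n, (x - r j)) := by
  refine ⟨fun n _ x => ?_, fun n => ?_⟩
  · obtain ⟨s, hs⟩ := identity n x
    refine ⟨fun k _ hk => ?_, fun k hk => ?_⟩
    · have h1 := alpha_eq n k hk x
      obtain ⟨c, hc, h2⟩ := coeff_prod_nonneg n s (2 * k)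
      rw [hs, h2] at h1
      have h3 : c = alpha n k x := by exact_mod_cast h1
      rwa [← h3]
    · have h1 := beta_eq n k (by omega) x
      obtain ⟨c, hc, h2⟩ := coeff_prod_nonneg n s (2 * (n - k))
      rw [hs, h2] at h1
      have h3 : c = beta n k x := by exact_mod_cast h1
      rwa [← h3]
  · obtain ⟨r, hr, h⟩ := Pool.Agent.Q165.NB.B_prod n
    refine ⟨r, hr, fun x => ?_⟩
    have h1 := Pool.Agent.Q165.NB.QP_eval n n x
    rw [h, Polynomial.eval_prod] at h1
    show Pool.Agent.Q165.NB.B n n x = _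
    rw [← h1]
    refine Finset.prod_congr rfl fun j _ => ?_
    simp

end Pool.Agent.Results.MP_6eafb7_an.Positivity
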